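import Pool.Agent.N483.KM.Stm1
import Pool.Agent.R755.KF.P2

/-!
# KM13a: the derivative of the affinity in the scale
-/

set_option autoImplicit false

namespace Pool.Agent.N488.KM

open MeasureTheory Set Filter Topology
open scoped ENNReal InnerProductSpace
open Pool.Agent.H888R2.KT (gs gc gc_pos)
open Pool.Agent.R754.KG (E)
open Pool.Agent.R755.KF
open Pool.Agent.N483.KM

variable {k : ℕ}

/-- the derivative of the Gaussian normalisation -/
theorem gc_deriv {h : ℝ} (hh : 0 < h) :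
    HasDerivAt (fun h => gc (Fin k) h) (k / (2 * h) * gc (Fin k) h) h := by
  have e : ∀ t : ℝ, 0 < t → gc (Fin k) t = (2 * Real.pi * t) ^ ((k : ℝ) / 2) := by
    intro t ht
    have h1 := GaussianFourier.integral_rexp_neg_mul_sq_norm (V := EuclideanSpace ℝ (Fin k))
      (b := 1 / (2 * t)) (by positivity)
    have h2 : gc (Fin k) t = ∫ v : EuclideanSpace ℝ (Fin k), Real.exp (-(1 / (2 * t)) * ‖v‖ ^ 2) := by
      unfold gc
      refine integral_congr_ae (Eventually.of_forall fun y => ?_)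
      simp only
      congr 1
      ring
    rw [h2, h1]
    simp only [finrank_euclideanSpace, Fintype.card_fin]
    congr 1
    field_simp
  have h1 : HasDerivAt (fun t : ℝ => 2 * Real.pi * t) (2 * Real.pi) h := by
    simpa using (hasDerivAt_id h).const_mul (2 * Real.pi)
  have hpos : 0 < 2 * Real.pi * h := by have := Real.pi_pos; positivity
  have h2 := h1.rpow_const (p := (k : ℝ) / 2) (Or.inl hpos.ne')
  have h3 : HasDerivAt (fun h => gc (Fin k) h)
      (2 * Real.pi * ((k : ℝ) / 2) * (2 * Real.pi * h) ^ ((k : ℝ) / 2 - 1)) h := by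
    refine h2.congr_of_eventuallyEq ?_
    filter_upwards [Ioi_mem_nhds hh] with t ht
    exact e t ht
  convert h3 using 1
  rw [e h hh, Real.rpow_sub_one hpos.ne']
  have := Real.pi_pos
  field_simp

/-- `t e^{-t} ≤ 1` -/
theorem te (t : ℝ) : t * Real.exp (-t) ≤ 1 := by
  have h1 : t ≤ Real.exp t := by linarith [Real.add_one_le_exp t]
  calc t * Real.exp (-t) ≤ Real.exp t * Real.exp (-t) :=
        mul_le_mul_of_nonneg_right h1 (Real.exp_pos _).le
    _ = 1 := by rw [← Real.exp_add, add_neg_cancel, Real.exp_zero]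

/-- the derivative of the kernel -/
theorem kd {r h : ℝ} (hh : h ≠ 0) : HasDerivAt (fun h => Real.exp (-(r / (2 * h))))
    (r / (2 * h ^ 2) * Real.exp (-(r / (2 * h)))) h := by
  have h1 : HasDerivAt (fun h : ℝ => 2 * h) 2 h := by simpa using (hasDerivAt_id h).const_mul 2
  have h2 : HasDerivAt (fun h : ℝ => Real.exp (-(r / (2 * h))))
      (Real.exp (-(r / (2 * h))) * -((0 * (2 * h) - r * 2) / (2 * h) ^ 2)) h :=
    (((hasDerivAt_const h r).div h1 (by positivity)).neg).exp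
  convert h2 using 1
  field_simp
  ring

theorem kb {r h : ℝ} (hr : 0 ≤ r) (hh : 0 < h) :
    ‖r / (2 * h ^ 2) * Real.exp (-(r / (2 * h)))‖ ≤ 1 / h := by
  rw [Real.norm_of_nonneg (by positivity)]
  have h1 := te (r / (2 * h))
  calc r / (2 * h ^ 2) * Real.exp (-(r / (2 * h)))
      = 1 / h * (r / (2 * h) * Real.exp (-(r / (2 * h)))) := by field_simp
    _ ≤ 1 / h * 1 := mul_le_mul_of_nonneg_left h1 (by positivity)
    _ = _ := mul_one _

/-- the derivative of `zn` in `h` -/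
noncomputable def dz (h : ℝ) (ν : Measure (E k)) (y : E k) : ℝ :=
  ∫ x, ‖x - y‖ ^ 2 / (2 * h ^ 2) * Real.exp (-(‖x - y‖ ^ 2 / (2 * h))) ∂ν

theorem dz_cont_fun (h : ℝ) (y : E k) : Continuous (fun x : E k =>
    ‖x - y‖ ^ 2 / (2 * h ^ 2) * Real.exp (-(‖x - y‖ ^ 2 / (2 * h)))) := by
  fun_prop

theorem dz_int {h : ℝ} (hh : 0 < h) (ν : Measure (E k)) [IsProbabilityMeasure ν] (y : E k) :
    Integrable (fun x => ‖x - y‖ ^ 2 / (2 * h ^ 2) * Real.exp (-(‖x - y‖ ^ 2 / (2 * h)))) ν :=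
  Integrable.of_bound (dz_cont_fun h y).aestronglyMeasurable (1 / h)
    (Eventually.of_forall fun _ => kb (by positivity) hh)

theorem zn_dh {h : ℝ} (hh : 0 < h) (ν : Measure (E k)) [IsProbabilityMeasure ν] (y : E k) :
    HasDerivAt (fun t => zn t ν y) (dz h ν y) h := by
  refine (hasDerivAt_integral_of_dominated_loc_of_deriv_le
    (F := fun t x => Real.exp (-(‖x - y‖ ^ 2 / (2 * t))))
    (F' := fun t x => ‖x - y‖ ^ 2 / (2 * t ^ 2) * Real.exp (-(‖x - y‖ ^ 2 / (2 * t))))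
    (bound := fun _ => 2 / h) (s := Ioi (h / 2)) (Ioi_mem_nhds (by linarith)) ?_
    (P2aux.Kn_int hh y) (dz_cont_fun h y).aestronglyMeasurable ?_ (integrable_const _) ?_).2
  · refine Eventually.of_forall fun t => ?_
    exact (by fun_prop : Continuous fun x : E k =>
      Real.exp (-(‖x - y‖ ^ 2 / (2 * t)))).aestronglyMeasurable
  · refine Eventually.of_forall fun x t ht => ?_
    have ht' : h / 2 < t := ht
    have ht0 : 0 < t := by linarith
    refine (kb (by positivity) ht0).trans ?_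
    rw [div_le_div_iff₀ ht0 hh]
    linarith
  · refine Eventually.of_forall fun x t ht => ?_
    have ht' : h / 2 < t := ht
    exact kd (by linarith : t ≠ 0)

theorem dz_nonneg (h : ℝ) (ν : Measure (E k)) (y : E k) : 0 ≤ dz h ν y :=
  integral_nonneg fun x => by positivity

theorem dz_le {h B : ℝ} (hh : 0 < h) {ν : Measure (E k)} (hν : PB B ν) (y : E k) :
    dz h ν y ≤ (B + ‖y‖) ^ 2 / (2 * h ^ 2) * zn h ν y := by
  have := hν.prob
  unfold dz zn
  rw [← integral_const_mul]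
  refine integral_mono_ae (dz_int hh ν y) ((P2aux.Kn_int hh y).const_mul _) ?_
  filter_upwards [hν.bdd] with x hx
  refine mul_le_mul_of_nonneg_right ?_ (Real.exp_pos _).le
  refine div_le_div_of_nonneg_right ?_ (by positivity)
  refine pow_le_pow_left₀ (norm_nonneg _) ?_ 2
  exact (norm_sub_le _ _).trans (by linarith)

theorem dz_meas {h : ℝ} (ν : Measure (E k)) [IsProbabilityMeasure ν] :
    Measurable (fun y => dz h ν y) := by
  refine StronglyMeasurable.measurable ?_
  unfold dz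
  refine StronglyMeasurable.integral_prod_left (f := fun x y : E k =>
    ‖x - y‖ ^ 2 / (2 * h ^ 2) * Real.exp (-(‖x - y‖ ^ 2 / (2 * h)))) ?_
  exact (by fun_prop : Continuous (Function.uncurry fun x y : E k =>
    ‖x - y‖ ^ 2 / (2 * h ^ 2) * Real.exp (-(‖x - y‖ ^ 2 / (2 * h))))).stronglyMeasurable

/-- Gaussian decay of the density -/
theorem zn_dec {h0 t B : ℝ} (hh : 0 < h0) (ht1 : h0 / 2 < t) (ht2 : t < 2 * h0)
    {ν : Measure (E k)} (hν : PB B ν) (y : E k) :
    zn t ν y ≤ Real.exp (B ^ 2 / h0) * Real.exp (-(1 / (8 * h0)) * ‖y‖ ^ 2) := by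
  have := hν.prob
  have ht0 : 0 < t := by linarith
  have h1 : zn t ν y ≤ ∫ _x, Real.exp (B ^ 2 / h0) * Real.exp (-(1 / (8 * h0)) * ‖y‖ ^ 2) ∂ν := by
    unfold zn
    refine integral_mono_ae (P2aux.Kn_int ht0 y) (integrable_const _) ?_
    filter_upwards [hν.bdd] with x hx
    rw [← Real.exp_add]
    apply Real.exp_le_exp.2
    have e1 : ‖y‖ ≤ ‖x - y‖ + B := by
      have : y = x - (x - y) := by abel
      calc ‖y‖ = ‖x - (x - y)‖ := by rw [← this]
        _ ≤ ‖x‖ + ‖x - y‖ := norm_sub_le _ _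
        _ ≤ _ := by linarith
    have e2 : ‖y‖ ^ 2 ≤ (‖x - y‖ + B) ^ 2 := pow_le_pow_left₀ (norm_nonneg _) e1 2
    have e3 : ‖y‖ ^ 2 ≤ 2 * ‖x - y‖ ^ 2 + 2 * B ^ 2 := by
      nlinarith [sq_nonneg (‖x - y‖ - B)]
    have e4 : ‖y‖ ^ 2 / (4 * t) - B ^ 2 / (2 * t) ≤ ‖x - y‖ ^ 2 / (2 * t) := by
      rw [div_sub_div _ _ (by positivity) (by positivity), div_le_div_iff₀ (by positivity)
        (by positivity)]
      have : 0 < t ^ 2 := by positivity
      nlinarith
    have e5 : 1 / (8 * h0) * ‖y‖ ^ 2 ≤ ‖y‖ ^ 2 / (4 * t) := by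
      rw [one_div_mul_eq_div]
      exact div_le_div_of_nonneg_left (by positivity) (by positivity) (by linarith)
    have e6 : B ^ 2 / (2 * t) ≤ B ^ 2 / h0 :=
      div_le_div_of_nonneg_left (by positivity) hh (by linarith)
    linarith
  simpa using h1

/-- the dominating function -/
theorem dom_int (c B : ℝ) (hc : 0 < c) :
    Integrable fun y : E k => (B + ‖y‖) ^ 2 * Real.exp (-c * ‖y‖ ^ 2) := by
  have g1 := Pool.Agent.H888R2.KT.N0x.gauss_int (κ := Fin k) c hc
  have g2 := Pool.Agent.H888R2.KT.N0x.gauss_int (κ := Fin k) (c / 2) (by positivity)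
  refine ((g1.const_mul (2 * B ^ 2)).add (g2.const_mul (4 / c))).mono'
    (by fun_prop : Continuous fun y : E k =>
      (B + ‖y‖) ^ 2 * Real.exp (-c * ‖y‖ ^ 2)).aestronglyMeasurable
    (Eventually.of_forall fun y => ?_)
  rw [Real.norm_of_nonneg (by positivity)]
  simp only [Pi.add_apply]
  have h1 : (B + ‖y‖) ^ 2 ≤ 2 * B ^ 2 + 2 * ‖y‖ ^ 2 := by nlinarith [sq_nonneg (B - ‖y‖)]
  have h2 : 2 * ‖y‖ ^ 2 * Real.exp (-c * ‖y‖ ^ 2) ≤ 4 / c * Real.exp (-(c / 2) * ‖y‖ ^ 2) := by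
    have h3 := te (c / 2 * ‖y‖ ^ 2)
    have h4 : Real.exp (-c * ‖y‖ ^ 2) =
        Real.exp (-(c / 2 * ‖y‖ ^ 2)) * Real.exp (-(c / 2) * ‖y‖ ^ 2) := by
      rw [← Real.exp_add]; congr 1; ring
    calc 2 * ‖y‖ ^ 2 * Real.exp (-c * ‖y‖ ^ 2)
        = 4 / c * (c / 2 * ‖y‖ ^ 2 * Real.exp (-(c / 2 * ‖y‖ ^ 2))) *
            Real.exp (-(c / 2) * ‖y‖ ^ 2) := by
          rw [h4]; field_simp; ring
      _ ≤ 4 / c * 1 * Real.exp (-(c / 2) * ‖y‖ ^ 2) := by
          refine mul_le_mul_of_nonneg_right ?_ (Real.exp_pos _).le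
          exact mul_le_mul_of_nonneg_left h3 (by positivity)
      _ = _ := by ring
  have h5 := mul_le_mul_of_nonneg_right h1 (Real.exp_pos (-c * ‖y‖ ^ 2)).le
  linarith

theorem lz_eq {h : ℝ} (hh : 0 < h) (ν : Measure (E k)) [IsProbabilityMeasure ν] (y : E k) :
    lz h ν y = 2 * dz h ν y - k / h * zn h ν y := by
  unfold lz dz zn
  have i2 : Integrable (fun x => Real.exp (-(‖x - y‖ ^ 2 / (2 * h)))) ν := P2aux.Kn_int hh y
  rw [← integral_const_mul, ← integral_const_mul, ← integral_sub ((dz_int hh ν y).const_mul _)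
    (i2.const_mul _)]
  refine integral_congr_ae (Eventually.of_forall fun x => ?_)
  simp only
  field_simp

/-- the derivative of the square root of the product -/
theorem sq_deriv {h : ℝ} (hh : 0 < h) (νa νb : Measure (E k)) [IsProbabilityMeasure νa]
    [IsProbabilityMeasure νb] (y : E k) :
    HasDerivAt (fun t => Real.sqrt (zn t νa y * zn t νb y))
      (1 / 2 * (Real.sqrt (zn h νa y * zn h νb y) *
        (dz h νa y / zn h νa y + dz h νb y / zn h νb y))) h := by
  have ha : 0 < zn h νa y := integral_exp_pos (P2aux.Kn_int hh y)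
  have hb : 0 < zn h νb y := integral_exp_pos (P2aux.Kn_int hh y)
  have h0 : HasDerivAt (fun t => zn t νa y * zn t νb y)
      (dz h νa y * zn h νb y + zn h νa y * dz h νb y) h := (zn_dh hh νa y).mul (zn_dh hh νb y)
  have h1 := h0.sqrt (mul_pos ha hb).ne'
  convert h1 using 1
  have hs : 0 < Real.sqrt (zn h νa y * zn h νb y) := Real.sqrt_pos.2 (by positivity)
  have hs2 : Real.sqrt (zn h νa y * zn h νb y) ^ 2 = zn h νa y * zn h νb y :=
    Real.sq_sqrt (by positivity)
  rw [eq_div_iff (by positivity)]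
  have e1 : 1 / 2 * (Real.sqrt (zn h νa y * zn h νb y) *
      (dz h νa y / zn h νa y + dz h νb y / zn h νb y)) *
      (2 * Real.sqrt (zn h νa y * zn h νb y)) =
      Real.sqrt (zn h νa y * zn h νb y) ^ 2 *
      (dz h νa y / zn h νa y + dz h νb y / zn h νb y) := by ring
  rw [e1, hs2]
  field_simp

/-- KM13a -/
theorem t_DA1 : S_DA1 := by
  intro k B h νa νb hh hB hνa hνb
  have := hνa.prob
  have := hνb.prob
  obtain ⟨hg0, -, -, -⟩ := gc_pos (κ := Fin k) h hh
  have hza : ∀ {t : ℝ}, 0 < t → ∀ y, 0 < zn t νa y := fun ht y =>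
    integral_exp_pos (P2aux.Kn_int ht y)
  have hzb : ∀ {t : ℝ}, 0 < t → ∀ y, 0 < zn t νb y := fun ht y =>
    integral_exp_pos (P2aux.Kn_int ht y)
  have hca : ∀ {t : ℝ}, 0 < t → Continuous (zn t νa) := fun ht => (P2aux.zn_c1 ht).continuous
  have hcb : ∀ {t : ℝ}, 0 < t → Continuous (zn t νb) := fun ht => (P2aux.zn_c1 ht).continuous
  have hs_cont : ∀ {t : ℝ}, 0 < t → Continuous (fun y => Real.sqrt (zn t νa y * zn t νb y)) :=
    fun ht => ((hca ht).mul (hcb ht)).sqrt
  have hs_le : ∀ {t : ℝ}, h / 2 < t → t < 2 * h → ∀ y,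
      Real.sqrt (zn t νa y * zn t νb y) ≤
        Real.exp (B ^ 2 / h) * Real.exp (-(1 / (8 * h)) * ‖y‖ ^ 2) := by
    intro t ht1 ht2 y
    have ht0 : 0 < t := by linarith
    apply Real.sqrt_le_iff.2 ⟨by positivity, ?_⟩
    rw [sq]
    exact mul_le_mul (zn_dec hh ht1 ht2 hνa y) (zn_dec hh ht1 ht2 hνb y) (hzb ht0 y).le
      (by positivity)
  have gI := Pool.Agent.H888R2.KT.N0x.gauss_int (κ := Fin k) (1 / (8 * h)) (by positivity)
  have hsI : Integrable (fun y => Real.sqrt (zn h νa y * zn h νb y)) := by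
    refine (gI.const_mul (Real.exp (B ^ 2 / h))).mono' (hs_cont hh).aestronglyMeasurable
      (Eventually.of_forall fun y => ?_)
    rw [Real.norm_of_nonneg (Real.sqrt_nonneg _)]
    exact hs_le (by linarith) (by linarith) y
  have key := hasDerivAt_integral_of_dominated_loc_of_deriv_le (μ := (volume : Measure (E k)))
    (F := fun t y => Real.sqrt (zn t νa y * zn t νb y))
    (F' := fun t y => 1 / 2 * (Real.sqrt (zn t νa y * zn t νb y) *
        (dz t νa y / zn t νa y + dz t νb y / zn t νb y)))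
    (bound := fun y => 2 / h ^ 2 * Real.exp (B ^ 2 / h) *
      ((B + ‖y‖) ^ 2 * Real.exp (-(1 / (8 * h)) * ‖y‖ ^ 2)))
    (x₀ := h) (s := Ioo (h / 2) (2 * h)) (Ioo_mem_nhds (by linarith) (by linarith)) ?_ hsI ?_ ?_
    ((dom_int (1 / (8 * h)) B (by positivity)).const_mul _) ?_
  rotate_left
  · filter_upwards [Ioi_mem_nhds hh] with t ht
    exact (hs_cont ht).aestronglyMeasurable
  · refine Measurable.aestronglyMeasurable ?_
    refine measurable_const.mul (((hs_cont hh).measurable).mul ?_)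
    exact ((dz_meas νa).div (hca hh).measurable).add ((dz_meas νb).div (hcb hh).measurable)
  · refine Eventually.of_forall fun y t ht => ?_
    have ht0 : 0 < t := by linarith [ht.1]
    have q1 : 0 ≤ dz t νa y / zn t νa y := div_nonneg (dz_nonneg _ _ _) (hza ht0 y).le
    have q2 : 0 ≤ dz t νb y / zn t νb y := div_nonneg (dz_nonneg _ _ _) (hzb ht0 y).le
    have q3 : (B + ‖y‖) ^ 2 / (2 * t ^ 2) ≤ 2 / h ^ 2 * (B + ‖y‖) ^ 2 := by
      rw [div_mul_eq_mul_div, div_le_div_iff₀ (by positivity) (by positivity)]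
      have : h ^ 2 ≤ 4 * t ^ 2 := by nlinarith [ht.1]
      have h6 : 0 ≤ (B + ‖y‖) ^ 2 := by positivity
      nlinarith
    have q4 : dz t νa y / zn t νa y ≤ 2 / h ^ 2 * (B + ‖y‖) ^ 2 :=
      ((div_le_iff₀ (hza ht0 y)).2 (dz_le ht0 hνa y)).trans q3
    have q5 : dz t νb y / zn t νb y ≤ 2 / h ^ 2 * (B + ‖y‖) ^ 2 :=
      ((div_le_iff₀ (hzb ht0 y)).2 (dz_le ht0 hνb y)).trans q3
    rw [Real.norm_of_nonneg (by positivity)]
    calc 1 / 2 * (Real.sqrt (zn t νa y * zn t νb y) *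
          (dz t νa y / zn t νa y + dz t νb y / zn t νb y))
        ≤ 1 / 2 * ((Real.exp (B ^ 2 / h) * Real.exp (-(1 / (8 * h)) * ‖y‖ ^ 2)) *
          (2 / h ^ 2 * (B + ‖y‖) ^ 2 + 2 / h ^ 2 * (B + ‖y‖) ^ 2)) := by
          refine mul_le_mul_of_nonneg_left ?_ (by norm_num)
          exact mul_le_mul (hs_le ht.1 ht.2 y) (add_le_add q4 q5) (add_nonneg q1 q2)
            (by positivity)
      _ = _ := by ring
  · refine Eventually.of_forall fun y t ht => ?_
    have ht0 : 0 < t := by linarith [ht.1]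
    exact sq_deriv ht0 νa νb y
  obtain ⟨kI, kD⟩ := key
  have hD : HasDerivAt (fun t => aff t νa νb)
      (-(k / (2 * h) * gc (Fin k) h) / gc (Fin k) h ^ 2 *
        (∫ y, Real.sqrt (zn h νa y * zn h νb y)) +
      (gc (Fin k) h)⁻¹ * ∫ y, 1 / 2 * (Real.sqrt (zn h νa y * zn h νb y) *
        (dz h νa y / zn h νa y + dz h νb y / zn h νb y))) h :=
    ((gc_deriv (k := k) hh).inv hg0.ne').mul kD
  convert hD using 1
  have hl : ∀ y, Real.sqrt (zn h νa y * zn h νb y) *
      (lz h νa y / zn h νa y + lz h νb y / zn h νb y) =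
      4 * (1 / 2 * (Real.sqrt (zn h νa y * zn h νb y) *
        (dz h νa y / zn h νa y + dz h νb y / zn h νb y))) -
      2 * k / h * Real.sqrt (zn h νa y * zn h νb y) := by
    intro y
    rw [lz_eq hh νa y, lz_eq hh νb y]
    have h1 := (hza hh y).ne'
    have h2 := (hzb hh y).ne'
    rw [sub_div, sub_div, mul_div_assoc, mul_div_assoc, mul_div_assoc, mul_div_assoc, div_self h1,
      div_self h2]
    ring
  rw [integral_congr_ae (Eventually.of_forall hl)]
  rw [integral_sub (kI.const_mul _) (hsI.const_mul _), integral_const_mul (4 : ℝ),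
    integral_const_mul (2 * (k : ℝ) / h)]
  generalize (∫ y, 1 / 2 * (Real.sqrt (zn h νa y * zn h νb y) *
    (dz h νa y / zn h νa y + dz h νb y / zn h νb y))) = I1
  generalize (∫ y, Real.sqrt (zn h νa y * zn h νb y)) = I2
  field_simp
  ring

end Pool.Agent.N488.KM
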